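import Pool.Agent.KS6_37.Grig.Three

/-!
# The elements `g` of the question are dense and countable in number

Existence of one such `g` is an earlier result.  Density is a consequence.  Countability: if
`Δ = ⟨Γ, g⟩` has the congruence subgroup property, then `g` is the value at `g` of a word `w` in
the free product of `Γ` and `⟨x⟩` with exponent sum zero in `x` (otherwise `Δ` would have a proper
normal subgroup of finite index containing `Γ`, which is dense in the profinite completion).  The
finite quotients of `Γ` are `2`-groups, and in a nilpotent group an equation `x = w(x)` of this
kind has exactly one solution, by a contraction argument along the lower central series.  So `g`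
is determined by `w`, and there are countably many words.  See
`Pool/Agent/KS6_37/Grig/Sys.lean`, `Crit.lean`, `Crit2.lean`.
-/

set_option autoImplicit false

namespace Pool.Agent.Results.MP_af9c8b_al.CountableDense

open Pool.Agent.KS6_37.Grig ProfiniteGrp.ProfiniteCompletion

/-- The profinite completion of the Grigorchuk group `Γ`: the inverse limit of the quotients of
`Γ` by its normal subgroups of finite index. -/
abbrev GamHat : ProfiniteGrp.{0} := completion (GrpCat.of Gam)

/-- The canonical map from the Grigorchuk group to its profinite completion. -/
abbrev can : Gam → GamHat := etaFn (GrpCat.of Gam)

/-- The congruence subgroup property of a subgroup `Δ` of a topological group `P`: every normal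
subgroup of finite index of `Δ` is the intersection of `Δ` with an open normal subgroup of `P`. -/
def HasCSP {P : Type} [Group P] [TopologicalSpace P] (Δ : Subgroup P) : Prop :=
  ∀ N : Subgroup Δ, N.Normal → N.FiniteIndex →
    ∃ M : Subgroup P, M.Normal ∧ IsOpen (M : Set P) ∧ N = M.subgroupOf Δ

/-- Let `Γ` be the first Grigorchuk group. The set of the elements `g` of its profinite completion,
not in `Γ`, for which `⟨Γ, g⟩` has the congruence subgroup property is countable and dense. -/
theorem result :
    {g : GamHat | g ∉ Set.range can ∧
      HasCSP (Subgroup.closure (Set.range can ∪ {g}))}.Countable ∧
    Dense {g : GamHat | g ∉ Set.range can ∧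
      HasCSP (Subgroup.closure (Set.range can ∪ {g}))} :=
  ⟨countable_g, dense_g⟩

end Pool.Agent.Results.MP_af9c8b_al.CountableDense
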