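import Pool.Agent.KS6_37.Grig.Three

/-!
# A criterion for the congruence subgroup property of finitely generated overgroups

See `Pool/Agent/KS6_37/Grig/Sys.lean`, `Crit.lean`, `Crit2.lean` for the proof, which works for
every group whose finite quotients are nilpotent.
-/

set_option autoImplicit false

namespace Pool.Agent.Results.MP_af9c8b_al.Criterion

open Pool.Agent.KS6_37.Grig ProfiniteGrp.ProfiniteCompletion

/-- The profinite completion of the Grigorchuk group `Γ`: the inverse limit of the quotients of
`Γ` by its normal subgroups of finite index. -/
abbrev GamHat : Type := completion (GrpCat.of Gam)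

/-- The canonical map from the Grigorchuk group to its profinite completion. -/
def can : Gam →* GamHat where
  toFun := etaFn (GrpCat.of Gam)
  map_one' := rfl
  map_mul' _ _ := rfl

/-- The congruence subgroup property of a subgroup `Δ` of a topological group `P`: every normal
subgroup of finite index of `Δ` is the intersection of `Δ` with an open normal subgroup of `P`. -/
def HasCSP {P : Type} [Group P] [TopologicalSpace P] (Δ : Subgroup P) : Prop :=
  ∀ N : Subgroup Δ, N.Normal → N.FiniteIndex →
    ∃ M : Subgroup P, M.Normal ∧ IsOpen (M : Set P) ∧ N = M.subgroupOf Δ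

/-- `⟨Γ, g_1, ..., g_n⟩` -/
def overgroup {n : ℕ} (g : Fin n → GamHat) : Subgroup GamHat :=
  Subgroup.closure (Set.range can ∪ Set.range g)

/-- Words in the variables `x_1, ..., x_n` with coefficients in `Γ`: the free product of `Γ` and
the free group on `x_1, ..., x_n`. -/
abbrev Word (n : ℕ) : Type := Monoid.Coprod Gam (FreeGroup (Fin n))

/-- The value of a word at `(g_1, ..., g_n)`: `Γ` is mapped by `can`, and `x_i` to `g_i`. -/
def value {n : ℕ} (g : Fin n → GamHat) : Word n →* GamHat :=
  Monoid.Coprod.lift can (FreeGroup.lift g)

/-- The exponent sum of each variable is zero: the image of the word in the free abelian group on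
`x_1, ..., x_n` is trivial. -/
def Balanced {n : ℕ} (w : Word n) : Prop := Abelianization.of (Monoid.Coprod.snd w) = 1

/-- Let `Γ` be the first Grigorchuk group and `g_1, ..., g_n` elements of its profinite completion.
Then `Δ = ⟨Γ, g_1, ..., g_n⟩` has the congruence subgroup property if and only if
(1) `(g_1, ..., g_n)` is the unique solution in the profinite completion of a system of equations
`x_i = w_i(x_1, ..., x_n)`, `i = 1, ..., n`, the `w_i` being words with coefficients in `Γ` in
which every variable has exponent sum zero, and (2) every finite quotient of `Δ` is a `2`-group. -/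
theorem result (n : ℕ) (g : Fin n → GamHat) :
    HasCSP (overgroup g) ↔
      (∃ w : Fin n → Word n, (∀ i, Balanced (w i)) ∧
        ∀ h : Fin n → GamHat, (∀ i, h i = value h (w i)) ↔ h = g) ∧
      ∀ (N : Subgroup (overgroup g)) (_ : N.Normal), N.FiniteIndex → IsPGroup 2 (overgroup g ⧸ N) := by
  refine (crit_Gam g).trans (and_congr_left fun _ => exists_congr fun w => and_congr_right ?_)
  intro hw
  obtain ⟨g0, h0, h1⟩ := Pool.Agent.KS6_37.Crit.exists_unique_sol nilQ_Gam w hw
  constructor
  · intro hg h
    constructor
    · intro hh
      rw [h1 h hh, h1 g hg]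
    · rintro rfl
      exact hg
  · intro hg
    exact (hg g).2 rfl

end Pool.Agent.Results.MP_af9c8b_al.Criterion
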