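import Pool.Agent.KS6_37.Grig.Two

/-!
# An overgroup of the Grigorchuk group with the congruence subgroup property that contains a free
monoid of rank two

`y = (1, ((z, z), (1, y)))`, `z = (a c y)^4`, is the element of the profinite completion of `Γ`
for which an earlier result shows that `Δ = ⟨Γ, y⟩` has the congruence subgroup property
(`Pool/Agent/KS6_37/Grig/Defs.lean`, ..., `Profinite.lean` are taken over from there).  Here we
show that `Δ` contains a free monoid.  Let `p = c y`, `α = (a c y)^2` and `β = (z b z d)^2`; then
`α = (·, (·))` exchanges the vertices `101` and `111` with sections `z` and `p`, and `β` fixes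
them with sections `α⁻¹` and `β`.  So `x = α β⁻¹` exchanges them, and `x^2` has the section
`p x` at `111`, which is again of this kind; the elements `x` and `c x` have the same section at
one of the two vertices, and this gives that a word in `x` and `c x` can be reconstructed from its
value in `Δ` (`Pool/Agent/KS6_37/Grig/Free.lean`).
-/

set_option autoImplicit false

namespace Pool.Agent.Results.MP_af9c8b_al.FreeMonoidOvergroup

open Pool.Agent.KS6_37.Grig ProfiniteGrp.ProfiniteCompletion

/-- The profinite completion of the Grigorchuk group `Γ`: the inverse limit of the quotients of
`Γ` by its normal subgroups of finite index. -/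
abbrev GamHat : ProfiniteGrp.{0} := completion (GrpCat.of Gam)

/-- The canonical map from the Grigorchuk group to its profinite completion. -/
abbrev can : Gam → GamHat := etaFn (GrpCat.of Gam)

/-- The congruence subgroup property of a subgroup `Δ` of a topological group `P`: every normal
subgroup of finite index of `Δ` is the intersection of `Δ` with an open normal subgroup of `P`. -/
def HasCSP {P : Type} [Group P] [TopologicalSpace P] (Δ : Subgroup P) : Prop :=
  ∀ N : Subgroup Δ, N.Normal → N.FiniteIndex →
    ∃ M : Subgroup P, M.Normal ∧ IsOpen (M : Set P) ∧ N = M.subgroupOf Δ

/-- There is an element `g` of order two of the profinite completion of the Grigorchuk group `Γ`,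
not in `Γ`, such that `Δ = ⟨Γ, g⟩` has the congruence subgroup property and contains elements
`x`, `y` that generate a free monoid of rank two. -/
theorem result :
    ∃ g : GamHat, g ∉ Set.range can ∧ g * g = 1 ∧
      HasCSP (Subgroup.closure (Set.range can ∪ {g})) ∧
      ∃ x ∈ Subgroup.closure (Set.range can ∪ {g}), ∃ y ∈ Subgroup.closure (Set.range can ∪ {g}),
        Function.Injective (FreeMonoid.lift ![x, y]) :=
  ⟨gel, gel_notMem, gel_gel, fun N hN hf => csp N hN hf, free_monoid⟩

end Pool.Agent.Results.MP_af9c8b_al.FreeMonoidOvergroup
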